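import Pool.Agent.Helper58.DM.Goals

/-!
# Project DM (MP_06d934_gt): the three terms of the Ricci curvature (`M_TT`).
-/

set_option autoImplicit false

namespace Pool.Agent.Helper88.DM

open Matrix Pool.Agent.Helper58.DH Pool.Agent.Helper58.DM

section

variable {I : Type} [Fintype I] [DecidableEq I] (F : Frame I)

theorem cls_self (A : Fin 5) : cls A A = none := by
  revert A
  decide

theorem xx_bl (w : Fin 6 → ℝ) {i j : I} (h : F.bl i = F.bl j) : xx F w i j = 0 := by
  unfold xx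
  rw [h, cls_self]
  rfl

theorem prm_skew {X : Matrix I I ℂ} (h : Xᴴ = -X) : (prm F X)ᴴ = -prm F X := by
  ext i j
  have h1 := congrFun (congrFun h i) j
  rw [conjTranspose_apply, neg_apply] at h1
  rw [conjTranspose_apply, neg_apply]
  unfold prm
  by_cases hb : F.bl i = F.bl j
  · rw [if_pos hb.symm, if_pos hb, star_zero, neg_zero]
  · rw [if_neg fun h => hb h.symm, if_neg hb, h1]

theorem xx_prm (w : Fin 6 → ℝ) (X : Matrix I I ℂ) (i j : I) :
    (xx F w i j : ℂ) * prm F X i j = (xx F w i j : ℂ) * X i j := by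
  by_cases hb : F.bl i = F.bl j
  · rw [xx_bl F w hb, Complex.ofReal_zero, zero_mul, zero_mul]
  · unfold prm
    rw [if_neg hb]

theorem dsum {u v : I} (f : I → I → ℂ) :
    ∑ a, ∑ b, (if a = u ∧ b = v then (1 : ℂ) else 0) * f a b = f u v := by
  rw [Finset.sum_eq_single u, Finset.sum_eq_single v]
  · rw [if_pos ⟨rfl, rfl⟩, one_mul]
  · intro b _ hb
    rw [if_neg fun h => hb h.2, zero_mul]
  · intro h
    exact absurd (Finset.mem_univ _) h
  · intro a _ ha
    refine Finset.sum_eq_zero fun b _ => ?_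
    rw [if_neg fun h => ha h.1, zero_mul]
  · intro h
    exact absurd (Finset.mem_univ _) h

/-- the trace form -/
theorem tr_form (A Z : Matrix I I ℂ) : ∑ a, ∑ b, A a b * Z b a = (A * Z).trace := by
  rw [Matrix.trace]
  refine Finset.sum_congr rfl fun a _ => ?_
  rw [Matrix.diag_apply, Matrix.mul_apply]

theorem tr_comm (P Q Z : Matrix I I ℂ) : (⁅P, Q⁆ * Z).trace = (Q * ⁅Z, P⁆).trace := by
  rw [Ring.lie_def, Ring.lie_def, sub_mul, mul_sub, Matrix.trace_sub, Matrix.trace_sub,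
    Matrix.trace_mul_cycle, ← mul_assoc, ← mul_assoc]
  congr 1
  rw [Matrix.trace_mul_cycle, Matrix.trace_mul_cycle]

end

/-- **M_TT** -/
theorem m_tt (hE : M_ENT) (hK : M_KER) (hL : M_LSUM) : M_TT := by
  intro I _ _ F w κ _ _ e hk hw hO X hX
  obtain ⟨-, E2, E3, E4, E5, E6⟩ := hE I F hk
  have K := hK I F w κ e hk hw hO
  have L := hL I F w κ e hk hw hO
  obtain ⟨⟨X1, X2⟩, X3⟩ := (E2 X).1 hX
  have em : ∀ j, ((e j)ᴴ = -e j ∧ Th F (e j)) ∧ Off F (e j) := fun j => (E2 (e j)).1 (hO.mem j)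
  have hk0 : (kk F : ℂ) ≠ 0 := by
    rw [Ne, Complex.ofReal_eq_zero]
    exact hk.ne'
  refine ⟨?_, E4 X X X1 X1, ?_⟩
  · rw [Complex.ofReal_sum]
    have h1 : ∀ j, ((gx F w (prm F ⁅X, e j⁆) (prm F ⁅X, e j⁆) : ℝ) : ℂ) =
        -(kk F : ℂ) * ∑ a, ∑ b, (xx F w a b : ℂ) *
          ((⁅X, e j⁆ : Matrix I I ℂ) a b * (⁅X, e j⁆ : Matrix I I ℂ) b a) := by
      intro j
      have hs := prm_skew F (E6 X (e j) ⟨X1, X2⟩ (em j).1).1
      rw [E3 w _ _ hs hs]
      unfold Gc
      congr 1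
      refine Finset.sum_congr rfl fun a _ => Finset.sum_congr rfl fun b _ => ?_
      rw [← mul_assoc, xx_prm, mul_right_comm, (E5 w a b).1, xx_prm, mul_right_comm, mul_assoc]
    rw [Finset.sum_congr rfl fun j _ => h1 j, ← Finset.mul_sum, Finset.sum_comm]
    congr 1
    refine Finset.sum_congr rfl fun a _ => ?_
    rw [Finset.sum_comm]
    refine Finset.sum_congr rfl fun b _ => ?_
    rw [← Finset.mul_sum, L X X2 X3]
  · set Z : Matrix I I ℂ := Matrix.of fun a b ↦ (xx F w a b : ℂ) * X a b with hZ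
    have Za : ∀ a b, Z a b = (xx F w a b : ℂ) * X a b := fun a b => rfl
    have Z1 : Zᴴ = -Z := by
      ext i j
      have h1 := congrFun (congrFun X1 i) j
      rw [conjTranspose_apply, neg_apply] at h1
      rw [conjTranspose_apply, neg_apply, Za, Za, StarMul.star_mul, h1, (E5 w j i).1]
      simp
      ring
    have Z2 : Th F Z := by
      intro i j
      rw [Za, Za, X2 i j, (E5 w j i).2, (E5 w j i).1]
      ring
    have Z3 : Off F Z := by
      intro i j h
      rw [Za, X3 i j h, mul_zero]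
    have h1 : ∀ i j, ((gx F w (prm F ⁅e i, e j⁆) X : ℝ) : ℂ) =
        -(kk F : ℂ) * ∑ a, ∑ b, e j a b * (⁅Z, e i⁆ : Matrix I I ℂ) b a := by
      intro i j
      have hs := prm_skew F (E6 (e i) (e j) (em i).1 (em j).1).1
      rw [E3 w _ _ hs X1]
      unfold Gc
      congr 1
      have h2 : ∑ a, ∑ b, e j a b * (⁅Z, e i⁆ : Matrix I I ℂ) b a =
          ∑ a, ∑ b, (⁅e i, e j⁆ : Matrix I I ℂ) a b * Z b a := by
        rw [tr_form, tr_form, tr_comm]
      rw [h2]
      refine Finset.sum_congr rfl fun a _ => Finset.sum_congr rfl fun b _ => ?_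
      rw [← mul_assoc, xx_prm, Za, (E5 w b a).1]
      ring
    have h2 : ∀ i, ∑ j, (∑ a, ∑ b, e j a b * (⁅Z, e i⁆ : Matrix I I ℂ) b a) *
        (∑ a, ∑ b, e j a b * (⁅Z, e i⁆ : Matrix I I ℂ) b a) =
        -(1 / (kk F : ℂ)) * ∑ c, ∑ d, ((xx F w c d)⁻¹ : ℝ) *
          ((⁅Z, e i⁆ : Matrix I I ℂ) c d * (⁅Z, e i⁆ : Matrix I I ℂ) d c) := by
      intro i
      obtain ⟨Y1, Y2⟩ := E6 Z (e i) ⟨Z1, Z2⟩ (em i).1
      set Y : Matrix I I ℂ := ⁅Z, e i⁆ with hY
      have h3 : ∀ c d, ∑ j, e j c d * (∑ a, ∑ b, e j a b * Y b a) =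
          -(1 / (kk F : ℂ)) * ((xx F w c d)⁻¹ : ℝ) * Y c d := by
        intro c d
        have h4 : ∑ j, e j c d * (∑ a, ∑ b, e j a b * Y b a) =
            ∑ a, ∑ b, (∑ j, e j a b * e j c d) * Y b a := by
          simp_rw [Finset.mul_sum, Finset.sum_mul]
          rw [Finset.sum_comm]
          refine Finset.sum_congr rfl fun a _ => ?_
          rw [Finset.sum_comm]
          refine Finset.sum_congr rfl fun b _ => Finset.sum_congr rfl fun j _ => ?_
          ring
        rw [h4]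
        have h5 : ∑ a, ∑ b, (∑ j, e j a b * e j c d) * Y b a =
            -(1 / (2 * (kk F : ℂ))) * ((xx F w c d)⁻¹ : ℝ) *
              ((∑ a, ∑ b, (if a = d ∧ b = c then (1 : ℂ) else 0) * Y b a) -
                ((F.sg c * F.sg d : ℝ) : ℂ) *
                  ∑ a, ∑ b, (if a = F.bar c ∧ b = F.bar d then (1 : ℂ) else 0) * Y b a) := by
          simp only [Finset.mul_sum, ← Finset.sum_sub_distrib]
          refine Finset.sum_congr rfl fun a _ => Finset.sum_congr rfl fun b _ => ?_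
          rw [K a b c d]
          ring
        rw [h5, dsum fun a b => Y b a, dsum fun a b => Y b a, Y2 c d]
        have h6 : ((F.sg c * F.sg d : ℝ) : ℂ) * ((F.sg c * F.sg d : ℝ) : ℂ) = 1 := by
          rw [← Complex.ofReal_mul, mul_mul_mul_comm, F.sg_sq, F.sg_sq, mul_one, Complex.ofReal_one]
        linear_combination -(1 / (2 * (kk F : ℂ))) * (((xx F w c d)⁻¹ : ℝ) : ℂ) * Y c d * h6
      have h7 : ∑ j, (∑ a, ∑ b, e j a b * Y b a) * (∑ a, ∑ b, e j a b * Y b a) =
          ∑ c, ∑ d, Y d c * ∑ j, e j c d * (∑ a, ∑ b, e j a b * Y b a) := by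
        have h8 : ∀ j, (∑ a, ∑ b, e j a b * Y b a) * (∑ a, ∑ b, e j a b * Y b a) =
            ∑ c, ∑ d, Y d c * (e j c d * (∑ a, ∑ b, e j a b * Y b a)) := by
          intro j
          conv_lhs => rw [Finset.sum_mul]
          refine Finset.sum_congr rfl fun c _ => ?_
          rw [Finset.sum_mul]
          refine Finset.sum_congr rfl fun d _ => ?_
          ring
        rw [Finset.sum_congr rfl fun j _ => h8 j, Finset.sum_comm]
        refine Finset.sum_congr rfl fun c _ => ?_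
        rw [Finset.sum_comm]
        refine Finset.sum_congr rfl fun d _ => ?_
        rw [Finset.mul_sum]
      rw [h7]
      simp only [Finset.mul_sum (a := -(1 / (kk F : ℂ)))]
      refine Finset.sum_congr rfl fun c _ => Finset.sum_congr rfl fun d _ => ?_
      rw [h3 c d]
      ring
    rw [Complex.ofReal_sum]
    have h9 : ∀ i, ((∑ j, gx F w (prm F ⁅e i, e j⁆) X ^ 2 : ℝ) : ℂ) =
        -(kk F : ℂ) * ∑ c, ∑ d, ((xx F w c d)⁻¹ : ℝ) *
          ((⁅Z, e i⁆ : Matrix I I ℂ) c d * (⁅Z, e i⁆ : Matrix I I ℂ) d c) := by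
      intro i
      rw [Complex.ofReal_sum]
      have h10 : ∀ j, ((gx F w (prm F ⁅e i, e j⁆) X ^ 2 : ℝ) : ℂ) = (kk F : ℂ) * (kk F : ℂ) *
          ((∑ a, ∑ b, e j a b * (⁅Z, e i⁆ : Matrix I I ℂ) b a) *
            (∑ a, ∑ b, e j a b * (⁅Z, e i⁆ : Matrix I I ℂ) b a)) := by
        intro j
        rw [Complex.ofReal_pow, h1]
        ring
      rw [Finset.sum_congr rfl fun j _ => h10 j, ← Finset.mul_sum, h2]
      field_simp
    rw [Finset.sum_congr rfl fun i _ => h9 i, ← Finset.mul_sum, Finset.sum_comm]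
    congr 1
    refine Finset.sum_congr rfl fun c _ => ?_
    rw [Finset.sum_comm]
    refine Finset.sum_congr rfl fun d _ => ?_
    rw [← Finset.mul_sum, L Z Z2 Z3]

end Pool.Agent.Helper88.DM
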